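import Mathlib
import Pool.Agent.Run7.h870.LE.Fin

/-!
# Large deviations of the prime counts of the polynomials `n² + a`, `a ≤ N²`

For `a ≤ N²` the number of the primes `n² + a`, `n ≤ N`, has the mean order `N / (2 log N)`. The number of the
`a ≤ N²` for which it is at least `t` times as large, or at most `1 / t` times as large, is
`N² exp (- exp ((c + o(1)) t))` with `c = 2 e^(-γ)`, `c = 2 C₂ e^(-γ)`, where `C₂` is the twin prime constant,
for all `t → ∞` up to `(1 / c - δ) log log log N`. In particular these counts take all sizes from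
`(2 C₂ e^(-γ) + o(1)) / log log log N` to `(e^γ / 2 + o(1)) log log log N` times the mean order.

Proof. For all but `O(N² / log N)` of the `a ≤ N²` the prime count is the predicted one
(`R460/SC/Fb`: counts of the primes `n² + a` in almost all `a`; `R460/SC/Cl`: tails of the Euler product), and
the Euler product is up to a factor `1 + o(1)` its part over the primes `p ≤ (log N) / 2`, which is periodic in
`a` with a period `≤ N^0.7`. So the question is one about the distribution of the truncated products over a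
complete period, uniformly in the length of the product: upper bounds by moments, lower bounds by prescribing
the Legendre symbols for the primes up to a parameter (`Run7/h870/LJ/Mom`, `H`, `LE/Low`, `LE/Ld`).
-/

set_option autoImplicit false

namespace Pool.Agent.Results.MP_f1a94e_nt.LargeDeviations

open Finset Filter Topology
open Classical in
section

/-- the number of the `n`, `1 ≤ n ≤ N`, with `n² + a` prime -/
def P0 (a N : ℕ) : ℕ := #((Icc 1 N).filter (fun n : ℕ => (n ^ 2 + a).Prime))

/-- the number of the `a ≤ N²` for which `n² + a`, `n ≤ N`, has at least `t N / (2 log N)` primes -/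
noncomputable def large (N : ℕ) (t : ℝ) : ℝ :=
  #((Icc 1 (N ^ 2)).filter (fun a : ℕ => t * (N / (2 * Real.log N)) ≤ (P0 a N : ℝ)))

/-- the number of the `a ≤ N²` for which `n² + a`, `n ≤ N`, has at most `(1 / t) N / (2 log N)` primes -/
noncomputable def small (N : ℕ) (t : ℝ) : ℝ :=
  #((Icc 1 (N ^ 2)).filter (fun a : ℕ => (P0 a N : ℝ) ≤ 1 / t * (N / (2 * Real.log N))))

/-- **Large deviations of the prime counts of `n² + a`.** -/
theorem result : ∃ C2 : ℝ, 0 < C2 ∧
    -- the twin prime constant
    Tendsto (fun y : ℕ => ∏ p ∈ (Icc 3 y).filter Nat.Prime, (1 - 1 / ((p : ℝ) - 1) ^ 2)) atTop (𝓝 C2) ∧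
    ∀ δ : ℝ, 0 < δ → ∃ t0 : ℝ, ∃ N0 : ℕ, ∀ N : ℕ, N0 ≤ N → ∀ t : ℝ, t0 ≤ t →
      -- many primes
      (t ≤ (Real.exp Real.eulerMascheroniConstant / 2 - δ) * Real.log (Real.log (Real.log N)) →
        (N : ℝ) ^ 2 * Real.exp (-Real.exp ((2 * Real.exp (-Real.eulerMascheroniConstant) + δ) * t)) ≤
          large N t ∧
        large N t ≤
          (N : ℝ) ^ 2 * Real.exp (-Real.exp ((2 * Real.exp (-Real.eulerMascheroniConstant) - δ) * t))) ∧
      -- few primes
      (t ≤ (Real.exp Real.eulerMascheroniConstant / (2 * C2) - δ) * Real.log (Real.log (Real.log N)) →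
        (N : ℝ) ^ 2 * Real.exp (-Real.exp ((2 * C2 * Real.exp (-Real.eulerMascheroniConstant) + δ) * t)) ≤
          small N t ∧
        small N t ≤
          (N : ℝ) ^ 2 * Real.exp (-Real.exp ((2 * C2 * Real.exp (-Real.eulerMascheroniConstant) - δ) * t))) := by
  obtain ⟨C2, h1, h2, h3⟩ := Pool.Agent.Run7.h870.LE.e1
  refine ⟨C2, h1, h2, fun δ hδ => ?_⟩
  obtain ⟨t0, N0, h4⟩ := h3 δ hδ
  have e1 : (2 : ℝ) / Pool.Agent.N511.LL.eg = 2 * Real.exp (-Real.eulerMascheroniConstant) := by
    unfold Pool.Agent.N511.LL.eg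
    rw [Real.exp_neg]
    rfl
  have e2 : 2 * C2 / Pool.Agent.N511.LL.eg = 2 * C2 * Real.exp (-Real.eulerMascheroniConstant) := by
    unfold Pool.Agent.N511.LL.eg
    rw [Real.exp_neg]
    rfl
  refine ⟨t0, N0, fun N hN t ht => ⟨fun h => ?_, fun h => ?_⟩⟩
  · have h5 := (h4 N hN t ht).1 h
    rw [e1] at h5
    exact h5
  · have h5 := (h4 N hN t ht).2 h
    rw [e2] at h5
    exact h5

end

end Pool.Agent.Results.MP_f1a94e_nt.LargeDeviations
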