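import Mathlib
import Pool.Agent.Run7.h17.PolyBDH

/-!
# Primes `m² + c` in almost all residue classes of almost all moduli up to `x / log ^ A x`, for almost all `c`

For arbitrary nonconstant integer polynomials `F 1, ..., F k`, for instance `F 1 = X²`, and for almost all constant terms
`c 1, ..., c k` up to the size of the values: the numbers `t ≤ x` such that all `F i (t) + c i` are prime, counted with
an arbitrary weight (for instance the weight `Λ(t)`), have the expected number of members in the residue classes, in mean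
over the classes of the moduli `q ≤ x / log ^ A x` (a theorem of Barban-Davenport-Halberstam type). The expected number
is the one given by the sieve by the primes up to a power of `log x`.

Used: the starting files `Pool.Agent.H373R2.T7` (sieve model, energies of polynomial values), `Pool.Agent.TH823.Fam`,
`Pool.Agent.H560R3.GB` (von Mangoldt's function along families of small energy) and the large sieve of
`Pool.Agent.Helper112`. From Mathlib: `ArithmeticFunction.vonMangoldt` is von Mangoldt's function `Λ`; `Finset.Icc 1 x` are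
the integers from `1` to `x`, `Finset.range q` those from `0` to `q - 1`; `Int.toNat n = 0` for negative `n`, and `Λ(0) = 0`.
-/

set_option autoImplicit false

namespace Pool.Agent.Results.MP_f1a94e_nt.LargeModuli

open Finset Polynomial

/-- Von Mangoldt's function on the integers; it is `0` at the integers `n ≤ 0`. -/
noncomputable def vM (n : ℤ) : ℝ := ArithmeticFunction.vonMangoldt n.toNat

/-- The sieve model: the positive integers without prime factors up to `z` have the weight `∏_{p ≤ z} (1 - 1 / p)⁻¹`,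
the other integers the weight `0`. -/
noncomputable def model (z : ℕ) (n : ℤ) : ℝ :=
  if 1 ≤ n ∧ ∀ p ∈ (Icc 1 z).filter Nat.Prime, ¬ p ∣ n.toNat then
    (∏ p ∈ (Icc 1 z).filter Nat.Prime, (1 - 1 / (p : ℝ)))⁻¹ else 0

/-- The sum over the `t ≤ X` in the class `b` modulo `q` of
`θ(t) (∏_i Λ(F i (t) + c i) - ∏_i model(F i (t) + c i))`. -/
noncomputable def classError {k : ℕ} (z : ℕ) (θ : ℕ → ℝ) (F : Fin k → ℤ[X]) (c : Fin k → ℤ) (q b X : ℕ) : ℝ :=
  ∑ t ∈ (Icc 1 X).filter (fun t => t % q = b),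
    θ t * (∏ i, vM ((F i).eval (t : ℤ) + c i) - ∏ i, model z ((F i).eval (t : ℤ) + c i))

/-- For all `Q ≤ x / log ^ A x` and all lengths `Y q b ≤ x`: the sum over the moduli `q ≤ Q` and the classes `b` modulo `q`
of the absolute values of the differences, over the `t ≤ Y q b` in the class, of the weighted number of prime values and
its sieve model is at most `Q x / log ^ U x`. -/
def AlmostAllClasses (A U x z : ℕ) {k : ℕ} (θ : ℕ → ℝ) (F : Fin k → ℤ[X]) (c : Fin k → ℤ) : Prop :=
  ∀ Q : ℕ, Q * Real.log x ^ A ≤ x → ∀ Y : ℕ → ℕ → ℕ, (∀ q b, Y q b ≤ x) →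
    ∑ q ∈ Icc 1 Q, ∑ b ∈ range q, |classError z θ F c q b (Y q b)| ≤ Q * x / Real.log x ^ U

lemma pd_eq {k : ℕ} (z : ℕ) (F : Fin k → ℤ[X]) (a : Fin k → ℤ) (c : Fin k → ℕ) (t : ℕ) :
    Pool.Agent.Run7.h17.PB.pd z (fun i t => a i + (F i).eval (t : ℤ)) c t =
      ∏ i, vM ((F i).eval (t : ℤ) + (a i + c i)) - ∏ i, model z ((F i).eval (t : ℤ) + (a i + c i)) := by
  unfold Pool.Agent.Run7.h17.PB.pd
  have e : ∀ i, a i + (F i).eval (t : ℤ) + (c i : ℤ) = (F i).eval (t : ℤ) + (a i + c i) := fun i => by ring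
  simp_rw [e]
  congr 1
  · refine prod_congr rfl fun i _ => ?_
    unfold Pool.Agent.H373R2.T7.lamI vM
    split_ifs with h
    · rfl
    · have : ((F i).eval (t : ℤ) + (a i + c i)).toNat = 0 := Int.toNat_of_nonpos (by omega)
      rw [this]
      simp
  · refine prod_congr rfl fun i _ => ?_
    unfold Pool.Agent.H373R2.T7.lamzI Pool.Agent.H373R2.T7.lamz model
    by_cases h : 1 ≤ (F i).eval (t : ℤ) + (a i + c i)
    · rw [if_pos h]
      by_cases h2 : ∀ p ∈ Pool.Agent.H373R2.T7.pz z, ¬ p ∣ ((F i).eval (t : ℤ) + (a i + c i)).toNat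
      · rw [if_pos h2, if_pos ⟨h, h2⟩]
        rfl
      · rw [if_neg h2, if_neg (fun h3 => h2 h3.2)]
    · rw [if_neg h, if_neg (fun h3 => h h3.1)]

lemma classError_eq {k : ℕ} (z : ℕ) (θ : ℕ → ℝ) (F : Fin k → ℤ[X]) (a : Fin k → ℤ) (c : Fin k → ℕ) (q b X : ℕ) :
    classError z θ F (fun i => a i + c i) q b X =
    ∑ t ∈ Icc 1 X, if t % q = b then
      θ t * Pool.Agent.Run7.h17.PB.pd z (fun i t => a i + (F i).eval (t : ℤ)) c t else 0 := by
  unfold classError
  rw [sum_filter]
  refine sum_congr rfl fun t _ => ?_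
  rw [pd_eq]

open Classical in
/-- Let nonconstant integer polynomials `F 1, ..., F k` and `B, κ, U` be fixed. There are `A` and `B₀` such that for all `E`
and all large `x` the following holds for all integers `M i` between `x ^ deg (F i) / B` and `B x ^ deg (F i)`, all
integers `a i` with `|a i| ≤ B M i`, all `z` between `log ^ B₀ x` and `log ^ E x`, and all families of at most `log ^ κ x`
weights `θ l`, bounded by `log ^ κ x` on `[1, x]`. For all vectors `(a i + c i)_i`, `1 ≤ c i ≤ M i`, of constant terms but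
at most the proportion `1 / log ^ U x` of them, for all `l`: the sums of
`θ l (t) ∏_i Λ(F i (t) + a i + c i)` over the classes `b` of the moduli `q ≤ Q` are in mean as in the sieve model, for all
`Q ≤ x / log ^ A x` and all lengths. -/
theorem result (k : ℕ) (F : Fin k → ℤ[X]) (hF : ∀ i, 1 ≤ (F i).natDegree) (B κ U : ℕ) :
    ∃ A B₀ : ℕ, ∀ E : ℕ, ∃ x₀ : ℕ, ∀ x : ℕ, x₀ ≤ x → ∀ M : Fin k → ℕ,
    (∀ i, x ^ (F i).natDegree ≤ B * M i ∧ M i ≤ B * x ^ (F i).natDegree) → ∀ a : Fin k → ℤ, (∀ i, |a i| ≤ B * M i) →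
    ∀ z : ℕ, Real.log x ^ B₀ ≤ z → (z : ℝ) ≤ Real.log x ^ E →
    ∀ L : ℕ, (L : ℝ) ≤ Real.log x ^ κ → ∀ θ : Fin L → ℕ → ℝ, (∀ l, ∀ t ∈ Icc 1 x, |θ l t| ≤ Real.log x ^ κ) →
    (((Fintype.piFinset (fun i => Icc 1 (M i))).filter (fun c : Fin k → ℕ =>
      ¬ ∀ l, AlmostAllClasses A U x z (θ l) F (fun i => a i + c i))).card : ℝ) ≤ (∏ i, (M i : ℝ)) / Real.log x ^ U := by
  obtain ⟨A, B0, hB0⟩ := Pool.Agent.Run7.h17.PB.poly_bdh k F hF B κ U
  refine ⟨A, B0, fun E => ?_⟩
  obtain ⟨x0, h1⟩ := hB0 E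
  refine ⟨x0, fun x hx M hM a ha z hz1 hz2 L hL θ hθ => ?_⟩
  refine le_trans (Nat.cast_le.mpr (card_le_card ?_)) (h1 x hx M hM a ha z hz1 hz2 L hL θ hθ)
  intro c hc
  rw [mem_filter] at hc ⊢
  refine ⟨hc.1, fun hgood => hc.2 ?_⟩
  intro l Q hQ Y hY
  refine le_trans (le_of_eq ?_) (hgood l Q hQ Y hY)
  refine sum_congr rfl fun q _ => sum_congr rfl fun b _ => ?_
  rw [classError_eq]

end Pool.Agent.Results.MP_f1a94e_nt.LargeModuli
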