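import Pool.Agent.Run7.h536.QC7

set_option autoImplicit false

/-!
# Primes `n² + c`, `n` a product of integers with restricted digits, and `κ n^d + F + G + c` with arbitrary functions `F`, `G`

Fix a base `b` and the number `ρ = r + 2` of the factors. Let `n = m_1 ⋯ m_ρ`, where the `m_l` run through the integers
with `K_l` digits which satisfy arbitrary restrictions (at least two digits are allowed at every place of `m_l`; the
numbers `K_l` of the digits are comparable with `k`). For almost all integers `c` of at most the size of `n^2` the number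
of primes `n² + c` (weighted by the number of the factorisations, and by arbitrary weights) is the one predicted by the
model of the integers without prime factors up to a power of `k`. The same holds for
`κ n^d + F(m_1, …, m_(ρ - 1)) + G(m_ρ) + c` with ARBITRARY functions `F`, `G`, and for systems of such expressions.

Proof. The class of the families of nearly minimal additive energy is closed under `(v, w) ↦ κ v w + F(v) + G(w)` with
arbitrary functions `F`, `G` (`Run7.h536.TB3.closure`); the powers `m^d` of the integers with restricted digits belong to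
it (`Run7.h536.PW3.poly_energy`), so by induction the families above do (`QC6`). Duality with the bilinear estimate for
`Λ` minus its model (`TH212.EH.base`, starting files) gives the first moment over `c` (`QC1` to `QC7`).
-/

namespace Pool.Agent.Results.MP_f1a94e_nt.RestrictedDigitProducts

open Finset

/-- The integers `t < b ^ k` whose `i`-th digit in base `b` belongs to `D i`, for all `i < k`. -/
def restricted (b : ℕ) (D : ℕ → Finset ℕ) (k : ℕ) : Finset ℕ :=
  (range (b ^ k)).filter (fun t : ℕ => ∀ i < k, t / b ^ i % b ∈ D i)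

/-- The vectors `(m_1, …, m_ρ)`, `m_l` in the set `restricted b (D l) (K l)`. -/
abbrev Tuple (b : ℕ) {ρ : ℕ} (D : Fin ρ → ℕ → Finset ℕ) (K : Fin ρ → ℕ) : Type :=
  (l : Fin ρ) → {n : ℕ // n ∈ restricted b (D l) (K l)}

/-- `κ (m_1 ⋯ m_ρ) ^ d + F(m_1, …, m_(ρ - 1)) + G(m_ρ)`, where `ρ = r + 2`. -/
def value {b r : ℕ} {D : Fin (r + 2) → ℕ → Finset ℕ} {K : Fin (r + 2) → ℕ} (d : ℕ) (κ : ℤ) (F : (Fin (r + 1) → ℕ) → ℤ)
    (G : ℕ → ℤ) (m : Tuple b D K) : ℤ :=
  κ * (∏ l, (((m l).1 : ℕ) : ℤ)) ^ d + F (fun l => (m l.castSucc).1) + G (m (Fin.last (r + 1))).1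

/-- `L` lies between the logarithm on the primes and the von Mangoldt function (for example it is one of them). -/
def PrimeLike (L : ℕ → ℝ) : Prop :=
  ∀ n : ℕ, (if n.Prime then Real.log n else 0) ≤ L n ∧ L n ≤ ArithmeticFunction.vonMangoldt n

/-- The extension of `L` to the integers (zero for `n ≤ 0`). -/
noncomputable def ext (L : ℕ → ℝ) (n : ℤ) : ℝ := if 1 ≤ n then L n.toNat else 0

/-- The product of `1 - 1 / p` over the primes `p ≤ z`. -/
noncomputable def mertens (z : ℕ) : ℝ := ∏ p ∈ (Icc 1 z).filter Nat.Prime, (1 - 1 / (p : ℝ))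

open Classical in
/-- The model: `1 / mertens z` if `n ≥ 1` has no prime factor `p ≤ z`, and zero otherwise. -/
noncomputable def model (z : ℕ) (n : ℤ) : ℝ :=
  if 1 ≤ n ∧ ∀ p : ℕ, p.Prime → p ≤ z → ¬ (p : ℤ) ∣ n then (mertens z)⁻¹ else 0

lemma model_eq (z : ℕ) (n : ℤ) : Pool.Agent.H373R2.T7.lamzI z n = model z n := by
  classical
  have hV : Pool.Agent.H373R2.T7.Vz z = mertens z := by
    unfold Pool.Agent.H373R2.T7.Vz mertens Pool.Agent.H373R2.T7.pz
    rfl
  unfold Pool.Agent.H373R2.T7.lamzI Pool.Agent.H373R2.T7.lamz model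
  rw [hV]
  by_cases h : 1 ≤ n
  · rw [if_pos h]
    have e : (∀ p ∈ Pool.Agent.H373R2.T7.pz z, ¬ p ∣ n.toNat) ↔ (1 ≤ n ∧ ∀ p : ℕ, p.Prime → p ≤ z → ¬ (p : ℤ) ∣ n) := by
      have hn : ((n.toNat : ℕ) : ℤ) = n := Int.toNat_of_nonneg (by omega)
      constructor
      · intro h1
        refine ⟨h, fun p hp hpz hd => h1 p (Pool.Agent.H373R2.T7.mem_pz.2 ⟨hpz, hp⟩) ?_⟩
        rw [← hn] at hd
        exact_mod_cast hd
      · rintro ⟨_, h1⟩ p hp hd
        rw [Pool.Agent.H373R2.T7.mem_pz] at hp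
        apply h1 p hp.2 hp.1
        rw [← hn]
        exact_mod_cast hd
    simp only [e]
  · rw [if_neg h, if_neg (fun h1 => h h1.1)]

open Classical in
/-- The number of the vectors of integers `c_j`, `|c_j| ≤ B N_j`, for which the sums over `m` of
`w(m) ∏_j L(z_j(m) + c_j)` and of `w(m) ∏_j model(z_j(m) + c_j)` differ by more than `δ`. -/
noncomputable def exceptions {s : ℕ} {ι : Type} [Fintype ι] (B : ℕ) (N : Fin s → ℕ) (zv : Fin s → ι → ℤ) (L : ℕ → ℝ)
    (w : ι → ℝ) (z : ℕ) (δ : ℝ) : ℕ :=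
  ((Fintype.piFinset (fun j => Icc (-((B : ℤ) * N j)) ((B : ℤ) * N j))).filter (fun c : Fin s → ℤ => δ <
    |∑ m, w m * ∏ j, ext L (zv j m + c j) - ∑ m, w m * ∏ j, model z (zv j m + c j)|)).card

/-- Fix `b ≥ 2`, the degrees `d_j ≥ 2`, `j < s` (`s = 1`, `d = 2` in the problem), the number `ρ = r + 2` of the factors,
`A ≥ 1`, `B`, `T`, `U`. There is a `B₀` such that for every `E` and all large `k`: let `k ≤ K_l ≤ A k` for `l < ρ`, let
`D l i` be ARBITRARY sets of at least two digits, `κ_j ≠ 0` integers and `F_j`, `G_j` ARBITRARY functions with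
`|z_j(m)| ≤ B N_j`, `z_j(m) = κ_j (m_1 ⋯ m_ρ) ^ d_j + F_j(m_1, …, m_(ρ - 1)) + G_j(m_ρ)`, where
`N_j = b ^ (d_j (K_1 + … + K_ρ))`, and let `w` be ARBITRARY weights with `|w(m)| ≤ k ^ T`. Let `k ^ B₀ ≤ z ≤ k ^ E`, and let
`L` be the logarithm on the primes, or the von Mangoldt function. Then for all but at most `k ^ (-U) ∏ N_j` of the vectors
of integers `c_j`, `|c_j| ≤ B N_j`, the sum over the vectors `m = (m_1, …, m_ρ)` of `w(m) ∏_j L(z_j(m) + c_j)` differs
from the sum of `w(m) ∏_j model z (z_j(m) + c_j)` by at most the number of the `m` divided by `k ^ U`. -/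
theorem result (b : ℕ) (hb : 2 ≤ b) (s : ℕ) (d : Fin s → ℕ) (hd : ∀ j, 2 ≤ d j) (A : ℕ) (hA : 1 ≤ A) (r B T U : ℕ) :
    ∃ B₀ : ℕ, ∀ E : ℕ, ∃ k₀ : ℕ, ∀ k : ℕ, k₀ ≤ k → ∀ K : Fin (r + 2) → ℕ, (∀ l, k ≤ K l ∧ K l ≤ A * k) →
    ∀ D : Fin (r + 2) → ℕ → Finset ℕ, (∀ l, ∀ i < K l, D l i ⊆ range b ∧ 2 ≤ (D l i).card) →
    ∀ κ : Fin s → ℤ, (∀ j, κ j ≠ 0) → ∀ (F : Fin s → (Fin (r + 1) → ℕ) → ℤ) (G : Fin s → ℕ → ℤ),
    (∀ j (m : Tuple b D K), |value (d j) (κ j) (F j) (G j) m| ≤ (B : ℤ) * (b ^ (d j * ∑ l, K l) : ℕ)) →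
    ∀ w : Tuple b D K → ℝ, (∀ m, |w m| ≤ (k : ℝ) ^ T) → ∀ L : ℕ → ℝ, PrimeLike L →
    ∀ z : ℕ, (k : ℝ) ^ B₀ ≤ z → (z : ℝ) ≤ (k : ℝ) ^ E →
    (exceptions B (fun j => b ^ (d j * ∑ l, K l)) (fun j (m : Tuple b D K) => value (d j) (κ j) (F j) (G j) m) L w z
      (Fintype.card (Tuple b D K) / (k : ℝ) ^ U) : ℝ) ≤ (∏ j, ((b ^ (d j * ∑ l, K l) : ℕ) : ℝ)) / (k : ℝ) ^ U := by
  classical
  obtain ⟨B0, h0⟩ := Pool.Agent.Run7.h536.QC.prod_sys b hb s d hd A hA r B T U
  refine ⟨B0, fun E => ?_⟩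
  obtain ⟨k0, h1⟩ := h0 E
  refine ⟨k0, fun k hk K hK D hD κ hκ F G hv w hw L hL z hz1 hz2 => ?_⟩
  refine le_trans (le_of_eq ?_) (h1 k hk K hK D hD κ hκ F G hv z hz1 hz2 L hL w hw)
  unfold exceptions
  congr 2
  apply filter_congr
  intro c _
  have e : ∑ m : Tuple b D K, w m * ∏ j, ext L (value (d j) (κ j) (F j) (G j) m + c j) -
      ∑ m : Tuple b D K, w m * ∏ j, model z (value (d j) (κ j) (F j) (G j) m + c j) =
      ∑ m : Pool.Agent.Run7.h536.QC.Tx b D K, w m *
        (∏ j, Pool.Agent.Run7.h536.QC.LI L (Pool.Agent.Run7.h536.QC.zv b D K (d j) (κ j) (F j) (G j) m + c j) -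
          ∏ j, Pool.Agent.H373R2.T7.lamzI z (Pool.Agent.Run7.h536.QC.zv b D K (d j) (κ j) (F j) (G j) m + c j)) := by
    simp only [model_eq]
    rw [← sum_sub_distrib]
    apply sum_congr rfl
    intro t _
    rw [mul_sub]
    rfl
  rw [e]
  rfl

end Pool.Agent.Results.MP_f1a94e_nt.RestrictedDigitProducts
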