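import Mathlib
import Pool.Agent.Run7.h17.Tern2

/-!
# Every integer as a sum of three integers with prime polynomial values, for almost all constant terms

For instance `n ^ 2 + e` for almost all `e` (`k = 1`, `F j 0 = X ^ 2`).
Let `F j i`, `j < 3`, `i < k`, be arbitrary nonconstant integer polynomials. For almost all constant terms `c j i` up to
the size of the values, the weighted numbers of the solutions of `b 0 * n 0 + b 1 * n 1 + b 2 * n 2 = N`, for which all the
values `F j i (n j) + c j i` are primes, agree with the numbers for the sieve model, up to `x ^ 2 / log ^ U x`, for ALL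
integers `N` at the same time, with arbitrary weights of the `n j`.

Used: the starting files `Pool.Agent.H373R2.T7` (sieve model, energies of polynomial values), `Pool.Agent.TH823.Fam` and
`Pool.Agent.H560R3.GB` (von Mangoldt's function along families of small energy). From Mathlib:
`ArithmeticFunction.vonMangoldt` is von Mangoldt's function `Λ`; `Finset.Icc 1 x` are the integers from `1` to `x`;
`Int.toNat n = 0` for negative `n`, and `Λ(0) = 0`.
-/

set_option autoImplicit false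

namespace Pool.Agent.Results.MP_f1a94e_nt.TernarySums

open Finset Polynomial

/-- Von Mangoldt's function on the integers; it is `0` at the integers `n ≤ 0`. -/
noncomputable def vM (n : ℤ) : ℝ := ArithmeticFunction.vonMangoldt n.toNat

/-- The sieve model: the positive integers without prime factors up to `z` have the weight `∏_{p ≤ z} (1 - 1 / p)⁻¹`,
the other integers the weight `0`. -/
noncomputable def model (z : ℕ) (n : ℤ) : ℝ :=
  if 1 ≤ n ∧ ∀ p ∈ (Icc 1 z).filter Nat.Prime, ¬ p ∣ n.toNat then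
    (∏ p ∈ (Icc 1 z).filter Nat.Prime, (1 - 1 / (p : ℝ)))⁻¹ else 0

/-- The number of the solutions of `b 0 * n₀ + b 1 * n₁ + b 2 * n₂ = N` in integers `n₀`, `n₁`, `n₂` from `1` to `x`, where
the solution `(n₀, n₁, n₂)` has the weight `w 0 n₀ * w 1 n₁ * w 2 n₂`. -/
noncomputable def solutions (x : ℕ) (b : Fin 3 → ℤ) (w : Fin 3 → ℕ → ℝ) (N : ℤ) : ℝ :=
  ∑ n₀ ∈ Icc 1 x, ∑ n₁ ∈ Icc 1 x, ∑ n₂ ∈ Icc 1 x,
    if b 0 * n₀ + b 1 * n₁ + b 2 * n₂ = N then w 0 n₀ * w 1 n₁ * w 2 n₂ else 0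

/-- The weight `θ(n) ∏_i Λ(F i (n) + c i)`. -/
noncomputable def primeWeight {k : ℕ} (θ : ℕ → ℝ) (F : Fin k → ℤ[X]) (c : Fin k → ℤ) (n : ℕ) : ℝ :=
  θ n * ∏ i, vM ((F i).eval (n : ℤ) + c i)

/-- The weight `θ(n) ∏_i model(F i (n) + c i)`. -/
noncomputable def modelWeight {k : ℕ} (z : ℕ) (θ : ℕ → ℝ) (F : Fin k → ℤ[X]) (c : Fin k → ℤ) (n : ℕ) : ℝ :=
  θ n * ∏ i, model z ((F i).eval (n : ℤ) + c i)

lemma lam_eq (n : ℤ) : Pool.Agent.H373R2.T7.lamI n = vM n := by
  unfold Pool.Agent.H373R2.T7.lamI vM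
  split_ifs with h
  · rfl
  · have : n.toNat = 0 := Int.toNat_of_nonpos (by omega)
    rw [this]
    simp

lemma lamz_eq (z : ℕ) (n : ℤ) : Pool.Agent.H373R2.T7.lamzI z n = model z n := by
  unfold Pool.Agent.H373R2.T7.lamzI Pool.Agent.H373R2.T7.lamz model
  by_cases h : 1 ≤ n
  · rw [if_pos h]
    by_cases h2 : ∀ p ∈ Pool.Agent.H373R2.T7.pz z, ¬ p ∣ n.toNat
    · rw [if_pos h2, if_pos ⟨h, h2⟩]
      rfl
    · rw [if_neg h2, if_neg (fun h3 => h2 h3.2)]
  · rw [if_neg h, if_neg (fun h3 => h h3.1)]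

open Classical in
/-- Let nonconstant integer polynomials `F j i` (`j < 3`, `i < k`) and `B, κ, U` be fixed. There is `B₀` such that for all
`E` and all large `x` the following holds for all integers `M j i` between `x ^ deg (F j i) / B` and
`B x ^ deg (F j i)`, all integers `a j i` with `|a j i| ≤ B M j i`, all `z` between `log ^ B₀ x` and `log ^ E x`, all
weights `θ j`, bounded by `log ^ κ x` on `[1, x]`, and all nonzero integers `b j` with `|b j| ≤ log ^ κ x`. For all
arrays `(a j i + c j i)`, `1 ≤ c j i ≤ M j i`, of constant terms but at most the proportion `1 / log ^ U x` of them, for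
ALL integers `N` the weighted numbers of solutions for the primes and for the model differ by at most
`x ^ 2 / log ^ U x`. -/
theorem result (k : ℕ) (F : Fin 3 → Fin k → ℤ[X]) (hF : ∀ j i, 1 ≤ (F j i).natDegree) (B κ U : ℕ) :
    ∃ B₀ : ℕ, ∀ E : ℕ, ∃ x₀ : ℕ, ∀ x : ℕ, x₀ ≤ x → ∀ M : Fin 3 → Fin k → ℕ,
    (∀ j i, x ^ (F j i).natDegree ≤ B * M j i ∧ M j i ≤ B * x ^ (F j i).natDegree) →
    ∀ a : Fin 3 → Fin k → ℤ, (∀ j i, |a j i| ≤ B * M j i) →
    ∀ z : ℕ, Real.log x ^ B₀ ≤ z → (z : ℝ) ≤ Real.log x ^ E →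
    ∀ θ : Fin 3 → ℕ → ℝ, (∀ j, ∀ n ∈ Icc 1 x, |θ j n| ≤ Real.log x ^ κ) →
    ∀ b : Fin 3 → ℤ, (∀ j, b j ≠ 0 ∧ |(b j : ℝ)| ≤ Real.log x ^ κ) →
    (((Fintype.piFinset (fun j => Fintype.piFinset (fun i => Icc 1 (M j i)))).filter
      (fun c : Fin 3 → Fin k → ℕ => ¬ ∀ N : ℤ,
        |solutions x b (fun j => primeWeight (θ j) (F j) (fun i => a j i + c j i)) N -
          solutions x b (fun j => modelWeight z (θ j) (F j) (fun i => a j i + c j i)) N| ≤
          (x : ℝ) ^ 2 / Real.log x ^ U)).card : ℝ) ≤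
      (∏ j, ∏ i, (M j i : ℝ)) / Real.log x ^ U := by
  obtain ⟨B0, hB0⟩ := Pool.Agent.Run7.h17.Tern.tern_poly k F hF B (κ + 1) U
  refine ⟨B0, fun E => ?_⟩
  obtain ⟨n1, h1⟩ := hB0 E
  obtain ⟨n2, h2⟩ := Pool.Agent.H373R2.T7.ev_L' 3
  refine ⟨n1 + n2, fun x hx M hM a ha z hz1 hz2 θ hθ b hb => ?_⟩
  have hlog := h2 x (by omega)
  have hL1 : 1 ≤ Real.log x := by linarith
  have hκ : Real.log x ^ κ ≤ Real.log x ^ (κ + 1) := pow_le_pow_right₀ hL1 (by omega)
  have hκ0 : 0 < Real.log x ^ κ := by positivity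
  have key := h1 x (by omega) M hM a ha z hz1 hz2 θ (fun j n hn => (hθ j n hn).trans hκ) b (fun j => (hb j).1) (by
    have e0 := (hb 0).2
    have e1 := (hb 1).2
    have e2 := (hb 2).2
    push_cast
    rw [pow_succ]
    nlinarith)
  refine le_trans (Nat.cast_le.mpr (card_le_card ?_)) key
  intro m hm
  rw [mem_filter] at hm ⊢
  refine ⟨hm.1, ?_⟩
  obtain ⟨n, hn⟩ := not_forall.mp hm.2
  refine ⟨n, ?_⟩
  have hn := not_le.mp hn
  refine lt_of_lt_of_eq hn ?_
  have e1 : ∀ j : Fin 3, (primeWeight (θ j) (F j) (fun i => a j i + m j i)) =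
      fun t : ℕ => θ j t * ∏ i, Pool.Agent.H373R2.T7.lamI (a j i + (F j i).eval (t : ℤ) + (m j i : ℤ)) := by
    intro j
    ext t
    unfold primeWeight
    congr 1
    refine prod_congr rfl fun i _ => ?_
    rw [← lam_eq]
    congr 1
    ring
  have e2 : ∀ j : Fin 3, (modelWeight z (θ j) (F j) (fun i => a j i + m j i)) =
      fun t : ℕ => θ j t * ∏ i, Pool.Agent.H373R2.T7.lamzI z (a j i + (F j i).eval (t : ℤ) + (m j i : ℤ)) := by
    intro j
    ext t
    unfold modelWeight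
    congr 1
    refine prod_congr rfl fun i _ => ?_
    rw [← lamz_eq]
    congr 1
    ring
  unfold solutions Pool.Agent.Run7.h17.Tern.rep
  simp only [e1, e2]

end Pool.Agent.Results.MP_f1a94e_nt.TernarySums
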